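import Pool.Agent.H66.FA.T

set_option autoImplicit false

open Matrix

namespace Pool.Agent.H60.FAB

open Pool.Agent.H63.Fins Pool.Agent.H66.FA MeasureTheory Filter Topology

lemma d2_quad {n : ℕ} (L : V n → ℝ) (y u : V n) : d2 L y u u = u ⬝ᵥ (gm L y *ᵥ u) := by
  have h : u = ∑ k, u k • (ee k : V n) := by
    ext i
    simp [ee, Finset.sum_apply, Pi.single_apply]
  have e : ∀ a b : V n, d2 L y a b = ∑ i, ∑ j, a i * (b j * d2 L y (ee i) (ee j)) := by
    intro a b
    have ha : a = ∑ k, a k • (ee k : V n) := by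
      ext i
      simp [ee, Finset.sum_apply, Pi.single_apply]
    have hb : b = ∑ k, b k • (ee k : V n) := by
      ext i
      simp [ee, Finset.sum_apply, Pi.single_apply]
    unfold d2
    conv_lhs => rw [ha, hb]
    simp only [map_sum, map_smul, _root_.sum_apply, _root_.smul_apply,
      smul_eq_mul, Finset.mul_sum]
    rw [Finset.sum_comm]
    apply Finset.sum_congr rfl
    intro i _
    apply Finset.sum_congr rfl
    intro j _
    ring
  rw [e u u]
  simp only [dotProduct, Matrix.mulVec, Finset.mul_sum, gm]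
  apply Finset.sum_congr rfl
  intro i _
  apply Finset.sum_congr rfl
  intro j _
  ring

theorem pf_ML (h1 : T_PDF) : T_ML := by
  intro n F hF x
  have hsm : ContDiffOn ℝ (⊤ : ℕ∞) (fun y => F x y) {y | y ≠ 0} := by
    have h := hF.smooth.comp (s := {y : V n | y ≠ 0}) (f := fun y : V n => ((x, y) : V n × V n))
      (contDiff_const.prodMk contDiff_id).contDiffOn (fun y hy => ⟨Set.mem_univ _, hy⟩)
    exact h
  have hL : ContDiffOn ℝ (⊤ : ℕ∞) (fun y => F x y ^ 2 / 2) {y | y ≠ 0} :=
    (hsm.pow 2).div_const 2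
  have hopen : IsOpen {y : V n | y ≠ 0} := isOpen_ne
  have hF2 : ContDiffOn ℝ (⊤ : ℕ∞) (fun y => F x y ^ 2) {y | y ≠ 0} := hsm.pow 2
  have hfund : ∀ y, y ≠ 0 → fund F x y = gm (fun y => F x y ^ 2 / 2) y := by
    intro y hy
    ext i j
    have hG : ∀ z : V n, z ≠ 0 → DifferentiableAt ℝ (fun y => F x y ^ 2) z := fun z hz =>
      (hF2.contDiffAt (hopen.mem_nhds hz)).differentiableAt (by simp)
    have hP : ∀ z : V n, z ≠ 0 → pdy j (fun x y => F x y ^ 2) x z =
        fderiv ℝ (fun y => F x y ^ 2) z (ee j) := fun z hz =>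
      (h1 n j (fun x y => F x y ^ 2) x z).2 (hG z hz)
    have hdd : DifferentiableAt ℝ (fderiv ℝ (fun y => F x y ^ 2)) y := by
      have : ContDiffAt ℝ (⊤ : ℕ∞) (fderiv ℝ (fun y => F x y ^ 2)) y :=
        (hF2.contDiffAt (hopen.mem_nhds hy)).fderiv_right (by simp)
      exact this.differentiableAt (by simp)
    have hst : pdy i (pdy j (fun x y => F x y ^ 2)) x y =
        pdy i (fun _ z => fderiv ℝ (fun y => F x y ^ 2) z (ee j)) x y := by
      unfold pdy
      apply Filter.EventuallyEq.deriv_eq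
      have hc : ContinuousAt (fun t => Function.update y i t) (y i) :=
        (continuous_const.update i continuous_id).continuousAt
      have hm : Function.update y i (y i) ∈ {y : V n | y ≠ 0} := by
        rw [Function.update_eq_self]; exact hy
      filter_upwards [hc.preimage_mem_nhds (hopen.mem_nhds hm)] with t ht
      exact hP _ ht
    have hq : DifferentiableAt ℝ (fun z => fderiv ℝ (fun y => F x y ^ 2) z (ee j)) y :=
      hdd.clm_apply (differentiableAt_const _)
    rw [(h1 n i (fun _ z => fderiv ℝ (fun y => F x y ^ 2) z (ee j)) x y).2 hq] at hst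
    have hst2 : fderiv ℝ (fun z => fderiv ℝ (fun y => F x y ^ 2) z (ee j)) y (ee i) =
        fderiv ℝ (fderiv ℝ (fun y => F x y ^ 2)) y (ee i) (ee j) := by
      rw [fderiv_clm_apply hdd (differentiableAt_const _)]
      simp
    have hhalf : (fderiv ℝ (fun y => F x y ^ 2 / 2)) =ᶠ[𝓝 y]
        fun z => (1 / 2 : ℝ) • fderiv ℝ (fun y => F x y ^ 2) z := by
      filter_upwards [hopen.mem_nhds hy] with z hz
      have : (fun y => F x y ^ 2 / 2) = fun y => (1 / 2 : ℝ) • (F x y ^ 2) := by
        funext w; simp; ring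
      rw [this]
      exact fderiv_fun_const_smul (hG z hz) (1 / 2 : ℝ)
    unfold fund gm d2
    rw [hst, hst2, hhalf.fderiv_eq, fderiv_fun_const_smul hdd]
    simp
  refine ⟨⟨hL, ?_, ?_, ?_⟩, hfund⟩
  · have h := hF.homog x (Set.mem_univ _) 0 2 (by norm_num)
    rw [smul_zero] at h
    have : F x 0 = 0 := by linarith
    simp [this]
  · intro y c hc
    show F x (c • y) ^ 2 / 2 = c ^ 2 * (F x y ^ 2 / 2)
    rw [hF.homog x (Set.mem_univ _) y c hc]
    ring
  · intro y u hy hu
    rw [d2_quad, ← hfund y hy]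
    have := (hF.posDef x (Set.mem_univ _) y hy).dotProduct_mulVec_pos hu
    simpa using this

end Pool.Agent.H60.FAB
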