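import Pool.Agent.H66.FA.T

set_option autoImplicit false

open Matrix

namespace Pool.Agent.H60.FAB

open Pool.Agent.H63.Fins Pool.Agent.H66.FA MeasureTheory Filter Topology

/-- first zero -/
lemma first_zero {f : ℝ → ℝ} {t : ℝ} (ht : 0 ≤ t) (hf : ContinuousOn f (Set.Icc 0 t))
    (h0 : 0 < f 0) (h1 : f t ≤ 0) :
    ∃ s : ℝ, 0 < s ∧ s ≤ t ∧ f s = 0 ∧ ∀ r, 0 ≤ r → r < s → 0 < f r := by
  set S : Set ℝ := Set.Icc 0 t ∩ f ⁻¹' Set.Iic 0 with hS
  have hSc : IsCompact S := by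
    have : IsClosed S := hf.preimage_isClosed_of_isClosed isClosed_Icc isClosed_Iic
    exact isCompact_Icc.of_isClosed_subset this Set.inter_subset_left
  have hne : S.Nonempty := ⟨t, ⟨ht, le_refl t⟩, h1⟩
  obtain ⟨s, hs, hmin⟩ := hSc.exists_isLeast hne
  have hpos : 0 < s := by
    rcases lt_or_eq_of_le hs.1.1 with h | h
    · exact h
    · exfalso
      have := hs.2
      rw [← h] at this
      exact absurd this (not_le.2 h0)
  have hlt : ∀ r, 0 ≤ r → r < s → 0 < f r := by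
    intro r hr hrs
    by_contra hcon
    push Not at hcon
    have : s ≤ r := hmin ⟨⟨hr, le_trans hrs.le hs.1.2⟩, hcon⟩
    linarith
  refine ⟨s, hpos, hs.1.2, le_antisymm hs.2 ?_, hlt⟩
  have hcont : ContinuousWithinAt f (Set.Icc 0 s) s :=
    (hf s hs.1).mono (Set.Icc_subset_Icc_right hs.1.2)
  have hc2 : ContinuousWithinAt f (Set.Ico 0 s) s := hcont.mono Set.Ico_subset_Icc_self
  have hcl : (𝓝[Set.Ico 0 s] s).NeBot := by
    rw [← mem_closure_iff_nhdsWithin_neBot, closure_Ico (ne_of_lt hpos)]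
    exact ⟨hpos.le, le_refl s⟩
  apply ge_of_tendsto hc2
  filter_upwards [self_mem_nhdsWithin] with r hr
  exact (hlt r hr.1 hr.2).le

theorem pf_POS (h1 : T_EUL) (h2 : T_REG) (h3 : T_CVX) (h4 : T_MOM) (h5 : T_DEC) : T_POS := by
  intro m B E L hL hE hA γ T hT h0 t ht
  by_contra hcon
  push Not at hcon
  have hcont : ∀ s ∈ Set.Ioo (-1 : ℝ) T, ContinuousAt (fun t => γ t 0) s := by
    intro s hs
    obtain ⟨_, ξ, hd, _⟩ := hT s hs
    exact (continuous_apply 0).continuousAt.comp hd.continuousAt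
  have hcon' : ContinuousOn (fun t => γ t 0) (Set.Icc 0 t) := by
    intro s hs
    exact (hcont s ⟨by linarith [hs.1], lt_of_le_of_lt hs.2 ht.2⟩).continuousWithinAt
  obtain ⟨s, hs0, hst, hsz, hsl⟩ := first_zero ht.1 hcon' h0 hcon
  have hsT : s < T := lt_of_le_of_lt hst ht.2
  have hv := (hT s ⟨by linarith, hsT⟩).1
  have hint : 0 < ∫ r in (0 : ℝ)..s, γ r 0 := by
    apply intervalIntegral.intervalIntegral_pos_of_pos_on
    · apply ContinuousOn.intervalIntegrable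
      rw [Set.uIcc_of_le hs0.le]
      exact hcon'.mono (Set.Icc_subset_Icc_right hst)
    · intro r hr
      exact hsl r hr.1.le hr.2
    · exact hs0
  obtain ⟨hLs, hd, -⟩ := h4 m B E L hL hE γ T hT s ⟨hs0.le, hsT⟩
  have hd := hd (γ s) hsz
  obtain ⟨heu, -, -, -, -⟩ := h1 (m + 1) L hL (γ s) hv
  have hγ0 : γ 0 ≠ 0 := (hT 0 ⟨by norm_num, lt_trans hs0 hsT⟩).1
  have hc := h3 (m + 1) L hL (γ 0) (E (-∫ r in (0 : ℝ)..s, γ r 0) (γ s)) hγ0
  have hde := h5 m B E L hL hE hA (γ s) hv hsz (-∫ r in (0 : ℝ)..s, γ r 0) 0 (by linarith)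
  rw [hE.zero] at hde
  linarith

end Pool.Agent.H60.FAB
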