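import Pool.Agent.H66.FA.T

set_option autoImplicit false

open Matrix

namespace Pool.Agent.H60.FAB

open Pool.Agent.H63.Fins Pool.Agent.H66.FA MeasureTheory Filter Topology

/-- The derivative of `E a b` along a curve through `(0, y)`. -/
lemma hasDerivAt_E {m : ℕ} {B : V (m + 1) →L[ℝ] V (m + 1)}
    {E : ℝ → V (m + 1) →L[ℝ] V (m + 1)} (hE : IsE B E) (a : ℝ → ℝ) (b : ℝ → V (m + 1))
    (a' : ℝ) (b' y : V (m + 1)) (ha : HasDerivAt a a' 0) (hb : HasDerivAt b b' 0)
    (ha0 : a 0 = 0) (hb0 : b 0 = y) : HasDerivAt (fun t => E (a t) (b t)) (a' • B y + b') 0 := by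
  set Φ : ℝ × V (m + 1) → V (m + 1) := fun p => E p.1 p.2 with hΦ
  have hd : HasFDerivAt Φ (fderiv ℝ Φ (0, y)) (0, y) :=
    ((hE.smooth.differentiable (by simp)) (0, y)).hasFDerivAt
  have h1 : fderiv ℝ Φ (0, y) (1, 0) = B y := by
    have hc : HasDerivAt (fun t : ℝ => ((t, y) : ℝ × V (m + 1))) (1, 0) 0 :=
      (hasDerivAt_id 0).prodMk (hasDerivAt_const 0 y)
    have h := HasFDerivAt.comp_hasDerivAt (x := (0 : ℝ)) (l := Φ)
      (f := fun t : ℝ => ((t, y) : ℝ × V (m + 1))) (hl := hd) hc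
    have h' := hE.der 0 y
    rw [hE.zero] at h'
    exact h.unique h'
  have h2 : fderiv ℝ Φ (0, y) (0, b') = b' := by
    have hc : HasDerivAt (fun t : ℝ => (((0 : ℝ), y + t • b') : ℝ × V (m + 1))) (0, b') 0 := by
      have h3 : HasDerivAt (fun t : ℝ => y + t • b') b' 0 := by
        have := ((hasDerivAt_id (0 : ℝ)).smul_const b').const_add y
        simpa using this
      exact (hasDerivAt_const 0 (0 : ℝ)).prodMk h3
    have hd' : HasFDerivAt Φ (fderiv ℝ Φ (0, y)) ((0 : ℝ), y + (0 : ℝ) • b') := by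
      simpa using hd
    have h := HasFDerivAt.comp_hasDerivAt (x := (0 : ℝ)) (l := Φ)
      (f := fun t : ℝ => (((0 : ℝ), y + t • b') : ℝ × V (m + 1))) (hl := hd') hc
    have h4 : HasDerivAt (fun t : ℝ => y + t • b') b' 0 := by
      have := ((hasDerivAt_id (0 : ℝ)).smul_const b').const_add y
      simpa using this
    have h5 : (Φ ∘ fun t : ℝ => (((0 : ℝ), y + t • b') : ℝ × V (m + 1))) =
        fun t : ℝ => y + t • b' := by
      funext t
      simp [hΦ, hE.zero]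
    rw [h5] at h
    exact h.unique h4
  have h3 : fderiv ℝ Φ (0, y) (a', b') = a' • B y + b' := by
    have : ((a', b') : ℝ × V (m + 1)) = a' • ((1 : ℝ), (0 : V (m + 1))) + ((0 : ℝ), b') := by
      simp
    rw [this, map_add, map_smul, h1, h2]
  have hc : HasDerivAt (fun t : ℝ => ((a t, b t) : ℝ × V (m + 1))) (a', b') 0 := ha.prodMk hb
  have hd' : HasFDerivAt Φ (fderiv ℝ Φ (0, y)) (a 0, b 0) := by rw [ha0, hb0]; exact hd
  have h := HasFDerivAt.comp_hasDerivAt (x := (0 : ℝ)) (l := Φ)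
    (f := fun t : ℝ => ((a t, b t) : ℝ × V (m + 1))) (hl := hd') hc
  rw [h3] at h
  exact h

theorem pf_SPD (h1 : T_EUL) (h2 : T_REG) (h3 : T_ML) (h4 : T_DST) (h5 : T_SPR) : T_SPD := by
  intro m B E F hE hF hinv hS y ξ hy hξ
  obtain ⟨hL, -⟩ := h3 (m + 1) F hF 0
  set L : V (m + 1) → ℝ := fun y => F 0 y ^ 2 / 2 with hLdef
  obtain ⟨-, -, hsym, -, -⟩ := h1 (m + 1) L hL y hy
  obtain ⟨-, -, -, -, hDD, -, hpt⟩ := h2 (m + 1) L hL
  have hDpos : 0 < DD L y := (hpt y hy).2.2.2.1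
  set G : V (m + 1) := fun i => 2 * spray F 0 y i with hG
  have hspr := h5 m B E F hE hF hinv y
  have hw : ξ = y 0 • B y + G := by
    by_contra hne
    have hne' : ξ - y 0 • B y - G ≠ 0 := by
      intro h
      apply hne
      rw [sub_sub, sub_eq_zero] at h
      exact h
    have hp := hL.pos y _ hy hne'
    have hz : ∀ u, d2 L y (ξ - y 0 • B y - G) u = 0 := by
      intro u
      have e1 : d2 L y (ξ - y 0 • B y - G) u = d2 L y ξ u - y 0 * d2 L y (B y) u - d2 L y G u := by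
        simp [d2]
      rw [e1, hξ u, hspr u hy, hsym (B y) u]
      ring
    rw [hz] at hp
    exact lt_irrefl _ hp
  obtain ⟨⟨ε, hε, γ, w, hgeo⟩, hall⟩ := hS y hy
  have hder := hall ε hε γ w hgeo
  obtain ⟨hγ0, hw0, hg⟩ := hgeo
  obtain ⟨κ, hκ⟩ := h4 m B E F hE hF hinv
  obtain ⟨-, -, hdγ, hdw⟩ := hg 0 ⟨by linarith, hε⟩
  have hdγ0 : HasDerivAt (fun t => -(γ t 0)) (-(y 0)) 0 := by
    have h := (hasDerivAt_pi.1 hdγ 0).neg
    rw [hw0] at h
    exact h
  rw [hγ0, hw0] at hdw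
  have hz := hasDerivAt_E hE (fun t => -(γ t 0)) w (-(y 0)) _ y hdγ0 hdw (by simp [hγ0]) hw0
  have hzξ : (-(y 0)) • B y + (fun i => -2 * spray F 0 y i) = -ξ := by
    rw [hw]
    ext i
    simp [hG]
    ring
  rw [hzξ] at hz
  have hz0 : E (-(γ 0 0)) (w 0) = y := by
    rw [hγ0, hw0]
    simp [hE.zero]
  have hDDd : HasFDerivAt (DD L) (fderiv ℝ (DD L) y) (E (-(γ 0 0)) (w 0)) := by
    rw [hz0]
    exact ((hDD.contDiffAt (isOpen_ne.mem_nhds hy)).differentiableAt (by simp)).hasFDerivAt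
  have hcomp := HasFDerivAt.comp_hasDerivAt (x := (0 : ℝ)) (l := DD L)
    (f := fun t => E (-(γ t 0)) (w t)) (hl := hDDd) hz
  have hlog := (hcomp.log (by simp only [Function.comp]; rw [hz0]; exact ne_of_gt hDpos))
  have hlog2 := (hlog.div_const 2).add_const κ
  have heq : (fun t => distortion F (γ t) (w t)) =ᶠ[𝓝 0]
      fun t => Real.log ((DD L ∘ fun t => E (-(γ t 0)) (w t)) t) / 2 + κ := by
    filter_upwards [Ioo_mem_nhds (by linarith : -ε < 0) hε] with t ht
    exact hκ (γ t) (w t) (hg t ht).2.1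
  have hder2 := hder.congr_of_eventuallyEq heq.symm
  have := hlog2.unique hder2
  simp only [Function.comp, hz0, map_neg] at this
  have h6 : fderiv ℝ (DD L) y ξ / DD L y = 0 := by
    rw [neg_div] at this
    linarith
  rcases div_eq_zero_iff.1 h6 with h | h
  · exact h
  · exact absurd h (ne_of_gt hDpos)

end Pool.Agent.H60.FAB
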