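import Pool.Agent.H66.FA.T

set_option autoImplicit false

open Matrix

namespace Pool.Agent.H60.FAB

open Pool.Agent.H63.Fins Pool.Agent.H66.FA MeasureTheory Filter Topology

lemma d1_sum {n : ℕ} (L : V n → ℝ) (y w : V n) : d1 L y w = ∑ k, w k * d1 L y (ee k) := by
  have h : w = ∑ k, w k • (ee k : V n) := by
    ext i
    simp [ee, Finset.sum_apply, Pi.single_apply]
  unfold d1
  conv_lhs => rw [h]
  simp [map_sum]

lemma d1_B_sum {n : ℕ} (B : V n →L[ℝ] V n) (L : V n → ℝ) (y u : V n) :
    d1 L y (B u) = ∑ j, u j * d1 L y (B (ee j)) := by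
  have h : u = ∑ k, u k • (ee k : V n) := by
    ext i
    simp [ee, Finset.sum_apply, Pi.single_apply]
  unfold d1
  conv_lhs => rw [h]
  simp [map_sum]

theorem pf_XIS (h1 : T_EUL) (h2 : T_REG) : T_XIS := by
  intro m B L hL
  obtain ⟨-, -, hd1, -, -, hgi, hpt⟩ := h2 (m + 1) L hL
  set r : V (m + 1) → V (m + 1) := fun y j =>
    (ee j : V (m + 1)) 0 * d1 L y (B y) - y 0 * d1 L y (B (ee j)) with hr
  refine ⟨fun y i => ∑ j, gi L i j y * r y j, ?_, ?_⟩
  · rw [contDiffOn_pi]
    intro i
    apply ContDiffOn.sum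
    intro j _
    apply (hgi i j).mul
    simp only [hr]
    apply ContDiffOn.sub
    · apply contDiffOn_const.mul
      have : (fun y : V (m + 1) => d1 L y (B y)) = fun y => ∑ k, B y k * d1 L y (ee k) := by
        funext y
        exact d1_sum L y (B y)
      rw [this]
      apply ContDiffOn.sum
      intro k _
      apply ContDiffOn.mul _ (hd1 (ee k))
      exact ((contDiff_apply ℝ ℝ k).comp B.contDiff).contDiffOn
    · exact (contDiff_apply ℝ ℝ (0 : Fin (m + 1))).contDiffOn.mul (hd1 _)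
  · intro y hy
    obtain ⟨-, -, hpd, hdd, hq⟩ := hpt y hy
    obtain ⟨-, he, hsym, -, -⟩ := h1 (m + 1) L hL y hy
    have hxi : (fun i => ∑ j, gi L i j y * r y j) = (gm L y)⁻¹ *ᵥ r y := by
      funext i
      simp [Matrix.mulVec, dotProduct, gi]
    have hgr : gm L y *ᵥ ((gm L y)⁻¹ *ᵥ r y) = r y := by
      rw [Matrix.mulVec_mulVec, Matrix.mul_nonsing_inv, Matrix.one_mulVec]
      exact isUnit_iff_ne_zero.2 (ne_of_gt hdd)
    have hmain : ∀ u, d2 L y (fun i => ∑ j, gi L i j y * r y j) u =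
        u 0 * d1 L y (B y) - y 0 * d1 L y (B u) := by
      intro u
      rw [hsym, hq, hxi, hgr, d1_B_sum B L y u]
      simp only [dotProduct, hr]
      rw [Finset.mul_sum]
      have h0 : u 0 * d1 L y (B y) = ∑ j, u j * ((ee j : V (m + 1)) 0 * d1 L y (B y)) := by
        rw [Finset.sum_eq_single (0 : Fin (m + 1))]
        · simp [ee]
        · intro j _ hj
          simp [ee, Pi.single_apply, hj, eq_comm]
        · simp
      rw [h0, ← Finset.sum_sub_distrib]
      apply Finset.sum_congr rfl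
      intro j _
      ring
    refine ⟨hmain, ?_⟩
    rw [← he, hsym, hmain]
    ring

end Pool.Agent.H60.FAB
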